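import Pool.Agent.L7h38.WS.Cover

/-!
# Assigning missing colours to the uncoloured edges
-/

set_option autoImplicit false

namespace Pool.Agent.L7h38.WS

open Pool.Agent.W998.KG Pool.Agent.W411.KG
open Pool.Agent.Results.MP_633d19_co.SmallDegree
open Pool.Agent.Results.MP_633d19_co.SmallDegree.MGraph

variable {V E : Type}

theorem mem_ends_ori (G : MGraph V E) {e : E} {w : V} :
    w ∈ G.ends e ↔ w = (ori G e).1 ∨ w = (ori G e).2 := by
  rw [ends_ori, Sym2.mem_iff]

theorem exists_unblocked [Finite V] [Finite E] [DecidableEq V] {G : MGraph V E} {k : ℕ}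
    {c : E → Option (Fin k)} (hc : G.PP c) (hmiss : ∀ v, ∃ a, G.Miss c v a) (tw : E → E)
    (T : E → Set V) (R : Finset E) (hR : R.Nonempty) (hT : ∀ e ∈ R, CE G c (T e))
    (hTm : ∀ e ∈ R, ∀ v ∈ G.ends e, v ∈ T e) (Av : V → Finset (Fin k))
    (hAv : ∀ v, ∀ a ∈ Av v, G.Miss c v a)
    (hcard : ∀ v, 1 + {e | e ∈ R ∧ v ∈ G.ends e}.ncard ≤ (Av v).card) :
    ∃ e ∈ R, ∃ a ∈ Av (ori G e).1, ∃ b ∈ Av (ori G e).2, ∀ f ∈ R,
      (c (tw f) = some a ∨ c (tw f) = some b) → (ori G f).1 ∉ T e := by
  classical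
  by_contra hcon
  push Not at hcon
  have h1 : ∀ e ∈ R, ∃ w, w ∈ G.ends e ∧ ∀ a ∈ Av w, ∃ f ∈ R, c (tw f) = some a ∧
      (ori G f).1 ∈ T e := by
    intro e he
    by_contra h2
    push Not at h2
    obtain ⟨a, ha, ha'⟩ := h2 (ori G e).1 ((mem_ends_ori G).2 (Or.inl rfl))
    obtain ⟨b, hb, hb'⟩ := h2 (ori G e).2 ((mem_ends_ori G).2 (Or.inr rfl))
    obtain ⟨f, hf, h3 | h3, h4⟩ := hcon e he a ha b hb
    · exact ha' f hf h3 h4
    · exact hb' f hf h3 h4
  obtain ⟨e₀, he₀⟩ := hR
  have hVne : Nonempty V := ⟨(ori G e₀).1⟩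
  have hEne : Nonempty E := ⟨e₀⟩
  choose! w hw hw' using h1
  let Z := R.image w
  have hZ : ∀ z ∈ Z, ∃ e ∈ R, w e = z := fun z hz => Finset.mem_image.1 hz
  choose! ez hez hez' using hZ
  have h2 : ∀ z ∈ Z, ∀ a ∈ Av z, ∃ f ∈ R, c (tw f) = some a ∧ (ori G f).1 ∈ T (ez z) := by
    intro z hz a ha
    have := hw' (ez z) (hez z hz) a (by rw [hez' z hz]; exact ha)
    exact this
  choose! g hg hg' hg'' using h2
  have h3 : (Z.sigma Av).card ≤ R.card := by
    apply Finset.card_le_card_of_injOn (fun p : (_ : V) × Fin k => g p.1 p.2)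
    · rintro ⟨z, a⟩ hza
      rw [Finset.mem_coe, Finset.mem_sigma] at hza
      exact hg z hza.1 a hza.2
    · rintro ⟨z, a⟩ hza ⟨z', a'⟩ hza' heq
      rw [Finset.mem_coe, Finset.mem_sigma] at hza hza'
      simp only at hza hza' heq
      have e1 := hg' z hza.1 a hza.2
      have e2 := hg' z' hza'.1 a' hza'.2
      rw [← heq, e1, Option.some.injEq] at e2
      subst e2
      have e3 := hg'' z hza.1 a hza.2
      have e4 := hg'' z' hza'.1 a hza'.2
      rw [← heq] at e4
      have e5 : z ∈ T (ez z) := hTm (ez z) (hez z hza.1) z (by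
        have := hw (ez z) (hez z hza.1)
        rwa [hez' z hza.1] at this)
      have e6 : z' ∈ T (ez z') := hTm (ez z') (hez z' hza'.1) z' (by
        have := hw (ez z') (hez z' hza'.1)
        rwa [hez' z' hza'.1] at this)
      have e7 : z = z' := union hc hmiss (hT _ (hez z hza.1)) (hT _ (hez z' hza'.1)) e3 e4 e5 e6
        (hAv z a hza.2) (hAv z' a hza'.2)
      subst e7
      rfl
  rw [Finset.card_sigma] at h3
  have h4 : ∑ z ∈ Z, (1 + (R.filter fun e => w e = z).card) ≤ ∑ z ∈ Z, (Av z).card := by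
    apply Finset.sum_le_sum
    intro z hz
    refine le_trans ?_ (hcard z)
    refine Nat.add_le_add_left ?_ 1
    rw [← Set.ncard_coe_finset]
    apply Set.ncard_le_ncard
    · intro e he
      simp only [Finset.coe_filter, Set.mem_ofPred_eq] at he
      refine ⟨he.1, ?_⟩
      rw [← he.2]
      exact hw e he.1
    · exact Set.toFinite _
  rw [Finset.sum_add_distrib, ← Finset.card_eq_sum_card_image] at h4
  have h5 : 0 < Z.card := by
    rw [Finset.card_pos]
    exact ⟨w e₀, Finset.mem_image_of_mem w he₀⟩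
  simp only [Finset.sum_const, smul_eq_mul, mul_one] at h4
  omega

/-- exchanging the values at two points -/
noncomputable def swp (sg : E → Bool) (e e' : E) : E → Bool := by
  classical
  exact fun f => if f = e then sg e' else if f = e' then sg e else sg f

theorem swp_left (sg : E → Bool) (e e' : E) : swp sg e e' e = sg e' := by
  simp [swp]

theorem swp_right (sg : E → Bool) (e e' : E) : swp sg e e' e' = sg e := by
  by_cases h : e' = e
  · subst h; simp [swp]
  · simp [swp, h]

theorem swp_ne (sg : E → Bool) {e e' f : E} (h : f ≠ e) (h' : f ≠ e') : swp sg e e' f = sg f := by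
  simp [swp, h, h']

/-- the conclusion of the assignment procedure -/
structure Asg (G : MGraph V E) {k : ℕ} (c : E → Option (Fin k)) (tw : E → E) (R : Finset E)
    (Av : V → Finset (Fin k)) (sg sg' : E → Bool) (α β : E → Fin k) (δ : V → Fin k) : Prop where
  del : ∀ v, δ v ∈ Av v
  al : ∀ e ∈ R, α e ∈ Av (ori G e).1
  be : ∀ e ∈ R, β e ∈ Av (ori G e).2
  ald : ∀ e ∈ R, α e ≠ δ (ori G e).1
  bed : ∀ e ∈ R, β e ≠ δ (ori G e).2
  aa : ∀ e ∈ R, ∀ f ∈ R, e ≠ f → (ori G e).1 = (ori G f).1 → α e ≠ α f
  ab : ∀ e ∈ R, ∀ f ∈ R, e ≠ f → (ori G e).1 = (ori G f).2 → α e ≠ β f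
  bb : ∀ e ∈ R, ∀ f ∈ R, e ≠ f → (ori G e).2 = (ori G f).2 → β e ≠ β f
  out : ∀ g, (∀ f ∈ R, g ≠ f ∧ g ≠ tw f) → sg' g = sg g
  inn : ∀ e ∈ R, (sg' e = sg e ∧ sg' (tw e) = sg (tw e)) ∨ (sg' e = sg (tw e) ∧ sg' (tw e) = sg e)
  chn : ∀ e ∈ R, Ch G sg' c (β e) (α e) (ori G e).1 ((ori G e).2, !sg' e)

theorem assign [Finite V] [Finite E] {G : MGraph V E} {k : ℕ}
    {c : E → Option (Fin k)} (hc : G.PP c) (hmiss : ∀ v, ∃ a, G.Miss c v a) {tw : E → E}
    (T : E → Set V) (n : ℕ) : ∀ (R : Finset E), R.card = n → (hT : ∀ e ∈ R, CE G c (T e)) →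
    (hTm : ∀ e ∈ R, ∀ v ∈ G.ends e, v ∈ T e) → (hRn : ∀ e ∈ R, c e = none) →
    (htw : ∀ e ∈ R, G.ends (tw e) = G.ends e ∧ c (tw e) ≠ none) →
    (htwi : ∀ e ∈ R, ∀ f ∈ R, tw e = tw f → e = f) → ∀ (Av : V → Finset (Fin k)),
    (hAv : ∀ v, ∀ a ∈ Av v, G.Miss c v a) →
    (hcard : ∀ v, 1 + {e | e ∈ R ∧ v ∈ G.ends e}.ncard ≤ (Av v).card) → ∀ (sg : E → Bool),
    (hsg : ∀ e ∈ R, sg e ≠ sg (tw e)) →
    ∃ (sg' : E → Bool) (α β : E → Fin k) (δ : V → Fin k), Asg G c tw R Av sg sg' α β δ := by
  classical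
  induction n with
  | zero =>
    intro R hR _ _ _ _ _ Av hAv hcard sg hsg
    have hR0 : R = ∅ := Finset.card_eq_zero.1 hR
    subst hR0
    have h1 : ∀ v, ∃ a, a ∈ Av v := by
      intro v
      have := hcard v
      have h2 : 0 < (Av v).card := by omega
      exact Finset.card_pos.1 h2
    choose δ hδ using h1
    refine ⟨sg, fun e => δ (ori G e).1, fun e => δ (ori G e).1, δ, hδ, ?_, ?_, ?_, ?_, ?_, ?_, ?_,
      fun _ _ => rfl, ?_, ?_⟩ <;> intro e he <;> exact absurd he (by simp)
  | succ n ih =>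
    intro R hR hT hTm hRn htw htwi Av hAv hcard sg hsg
    have hRne : R.Nonempty := by
      rw [← Finset.card_pos]
      omega
    obtain ⟨e, heR, a, ha, b, hb, hunb⟩ :=
      exists_unblocked hc hmiss tw T R hRne hT hTm Av hAv hcard
    have hma : G.Miss c (ori G e).1 a := hAv _ a ha
    have hmb : G.Miss c (ori G e).2 b := hAv _ b hb
    have hTe := hT e heR
    have huT : (ori G e).1 ∈ T e := hTm e heR _ ((mem_ends_ori G).2 (Or.inl rfl))
    have hvT : (ori G e).2 ∈ T e := hTm e heR _ ((mem_ends_ori G).2 (Or.inr rfl))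
    have hrch : Rch G c b a (ori G e).1 (ori G e).2 := chain hc hTe huT hvT hma hmb
    obtain ⟨i, hi⟩ := ch_lift (sg := sg) hrch
    have htwn : ∀ f ∈ R, ∀ g ∈ R, f ≠ tw g := by
      intro f hf g hg h
      exact (htw g hg).2 (h ▸ hRn f hf)
    have htwa : c (tw e) ≠ some a := by
      intro h
      exact hma (tw e) (by rw [(htw e heR).1]; exact (mem_ends_ori G).2 (Or.inl rfl)) h
    have htwb : c (tw e) ≠ some b := by
      intro h
      exact hmb (tw e) (by rw [(htw e heR).1]; exact (mem_ends_ori G).2 (Or.inr rfl)) h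
    obtain ⟨sg1, hs1, hs1o, hs1i⟩ : ∃ sg1 : E → Bool,
        Ch G sg1 c b a (ori G e).1 ((ori G e).2, !sg1 e) ∧ (∀ g, g ≠ e → g ≠ tw e → sg1 g = sg g) ∧
        ((sg1 e = sg e ∧ sg1 (tw e) = sg (tw e)) ∨ (sg1 e = sg (tw e) ∧ sg1 (tw e) = sg e)) := by
      by_cases h : i = !sg e
      · refine ⟨sg, ?_, fun _ _ _ => rfl, Or.inl ⟨rfl, rfl⟩⟩
        rw [← h]
        exact hi
      · refine ⟨swp sg e (tw e), ?_, fun g h1 h2 => swp_ne sg h1 h2,
          Or.inr ⟨swp_left sg e (tw e), swp_right sg e (tw e)⟩⟩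
        have h2 : (!swp sg e (tw e) e) = i := by
          rw [swp_left]
          have h3 := hsg e heR
          revert h h3
          cases i <;> cases sg e <;> cases sg (tw e) <;> decide
        rw [h2]
        refine ch_congr ?_ hi
        intro g x y _ _ hcol
        have h4 : g ≠ e := by
          rintro rfl
          rw [hRn g heR] at hcol
          rcases hcol with h5 | h5 <;> exact absurd h5 (by simp)
        have h5 : g ≠ tw e := by
          rintro rfl
          rcases hcol with h6 | h6
          · exact htwb h6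
          · exact htwa h6
        exact (swp_ne sg h4 h5).symm
    let R' := R.erase e
    have hR' : ∀ f ∈ R', f ∈ R := fun f hf => Finset.mem_of_mem_erase hf
    have hR'e : ∀ f ∈ R', f ≠ e := fun f hf => Finset.ne_of_mem_erase hf
    let Av' : V → Finset (Fin k) := fun v =>
      if v = (ori G e).1 then (Av v).erase a else if v = (ori G e).2 then (Av v).erase b else Av v
    have hAvu : Av' (ori G e).1 = (Av (ori G e).1).erase a := by simp [Av']
    have hAvv : Av' (ori G e).2 = (Av (ori G e).2).erase b := by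
      have := (ori_ne G e).symm
      simp [Av', this]
    have hAvo : ∀ v, v ≠ (ori G e).1 → v ≠ (ori G e).2 → Av' v = Av v := by
      intro v h1 h2
      simp [Av', h1, h2]
    have hAvs : ∀ v, ∀ x ∈ Av' v, x ∈ Av v := by
      intro v x hx
      by_cases h1 : v = (ori G e).1
      · subst h1
        rw [hAvu] at hx
        exact Finset.mem_of_mem_erase hx
      · by_cases h2 : v = (ori G e).2
        · subst h2
          rw [hAvv] at hx
          exact Finset.mem_of_mem_erase hx
        · rwa [hAvo v h1 h2] at hx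
    have hnc : ∀ v, v ∈ G.ends e → {f | f ∈ R ∧ v ∈ G.ends f}.ncard =
        {f | f ∈ R' ∧ v ∈ G.ends f}.ncard + 1 := by
      intro v hv
      have h1 : {f | f ∈ R ∧ v ∈ G.ends f} = insert e {f | f ∈ R' ∧ v ∈ G.ends f} := by
        ext f
        simp only [Set.mem_insert_iff, Set.mem_ofPred_eq, R', Finset.mem_erase]
        constructor
        · rintro ⟨h2, h3⟩
          by_cases h4 : f = e
          · exact Or.inl h4
          · exact Or.inr ⟨⟨h4, h2⟩, h3⟩
        · rintro (rfl | ⟨⟨h2, h3⟩, h4⟩)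
          · exact ⟨heR, hv⟩
          · exact ⟨h3, h4⟩
      rw [h1, Set.ncard_insert_of_notMem]
      rintro ⟨h2, -⟩
      exact hR'e e h2 rfl
    have hcard' : ∀ v, 1 + {f | f ∈ R' ∧ v ∈ G.ends f}.ncard ≤ (Av' v).card := by
      intro v
      by_cases h1 : v = (ori G e).1
      · subst h1
        have h2 := hnc _ ((mem_ends_ori G).2 (Or.inl rfl))
        have h3 := hcard (ori G e).1
        rw [hAvu, Finset.card_erase_of_mem ha]
        omega
      · by_cases h2 : v = (ori G e).2
        · subst h2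
          have h2 := hnc _ ((mem_ends_ori G).2 (Or.inr rfl))
          have h3 := hcard (ori G e).2
          rw [hAvv, Finset.card_erase_of_mem hb]
          omega
        · rw [hAvo v h1 h2]
          refine le_trans (Nat.add_le_add_left ?_ 1) (hcard v)
          apply Set.ncard_le_ncard
          · rintro f ⟨h3, h4⟩
            exact ⟨hR' f h3, h4⟩
          · exact Set.toFinite _
    have htw1 : ∀ f ∈ R', f ≠ tw e ∧ tw f ≠ e ∧ tw f ≠ tw e := by
      intro f hf
      refine ⟨htwn f (hR' f hf) e heR, fun h => htwn e heR f (hR' f hf) h.symm, fun h => ?_⟩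
      exact hR'e f hf (htwi f (hR' f hf) e heR h)
    have hsg1 : ∀ f ∈ R', sg1 f ≠ sg1 (tw f) := by
      intro f hf
      obtain ⟨h1, h2, h3⟩ := htw1 f hf
      rw [hs1o f (hR'e f hf) h1, hs1o (tw f) h2 h3]
      exact hsg f (hR' f hf)
    obtain ⟨sg', α, β, δ, H⟩ := ih R' (by rw [Finset.card_erase_of_mem heR]; omega)
      (fun f hf => hT f (hR' f hf)) (fun f hf => hTm f (hR' f hf)) (fun f hf => hRn f (hR' f hf))
      (fun f hf => htw f (hR' f hf)) (fun f hf g hg => htwi f (hR' f hf) g (hR' g hg)) Av'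
      (fun v x hx => hAv v x (hAvs v x hx)) hcard' sg1 hsg1
    -- the signs of `e` and `tw e` do not change any more
    have hse : sg' e = sg1 e := by
      apply H.out
      intro f hf
      exact ⟨(hR'e f hf).symm, (htw1 f hf).2.1.symm⟩
    have hste : sg' (tw e) = sg1 (tw e) := by
      apply H.out
      intro f hf
      exact ⟨(htw1 f hf).1.symm, (htw1 f hf).2.2.symm⟩
    let α' : E → Fin k := fun f => if f = e then a else α f
    let β' : E → Fin k := fun f => if f = e then b else β f
    have hαe : α' e = a := by simp [α']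
    have hβe : β' e = b := by simp [β']
    have hαf : ∀ f, f ≠ e → α' f = α f := by intro f hf; simp [α', hf]
    have hβf : ∀ f, f ≠ e → β' f = β f := by intro f hf; simp [β', hf]
    have hmemR : ∀ f ∈ R, f ≠ e → f ∈ R' := fun f hf hfe => Finset.mem_erase.2 ⟨hfe, hf⟩
    -- elements of `Av' v` are not the colours used by `e`
    have hna : ∀ v x, v = (ori G e).1 → x ∈ Av' v → a ≠ x := by
      rintro v x rfl hx h
      rw [hAvu] at hx
      exact Finset.ne_of_mem_erase hx h.symm
    have hnb : ∀ v x, v = (ori G e).2 → x ∈ Av' v → b ≠ x := by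
      rintro v x rfl hx h
      rw [hAvv] at hx
      exact Finset.ne_of_mem_erase hx h.symm
    refine ⟨sg', α', β', δ, ?_, ?_, ?_, ?_, ?_, ?_, ?_, ?_, ?_, ?_, ?_⟩
    · intro v
      exact hAvs v _ (H.del v)
    · intro f hf
      by_cases h : f = e
      · subst h
        rw [hαe]
        exact ha
      · rw [hαf f h]
        exact hAvs _ _ (H.al f (hmemR f hf h))
    · intro f hf
      by_cases h : f = e
      · subst h
        rw [hβe]
        exact hb
      · rw [hβf f h]
        exact hAvs _ _ (H.be f (hmemR f hf h))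
    · intro f hf
      by_cases h : f = e
      · subst h
        rw [hαe]
        exact hna _ _ rfl (H.del _)
      · rw [hαf f h]
        exact H.ald f (hmemR f hf h)
    · intro f hf
      by_cases h : f = e
      · subst h
        rw [hβe]
        exact hnb _ _ rfl (H.del _)
      · rw [hβf f h]
        exact H.bed f (hmemR f hf h)
    · intro f hf g hg hfg heq
      by_cases h : f = e
      · subst h
        have h' : g ≠ f := hfg.symm
        rw [hαe, hαf g h']
        exact hna _ _ heq.symm (H.al g (hmemR g hg h'))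
      · by_cases h' : g = e
        · subst h'
          rw [hαe, hαf f h]
          exact (hna _ _ heq (H.al f (hmemR f hf h))).symm
        · rw [hαf f h, hαf g h']
          exact H.aa f (hmemR f hf h) g (hmemR g hg h') hfg heq
    · intro f hf g hg hfg heq
      by_cases h : f = e
      · subst h
        have h' : g ≠ f := hfg.symm
        rw [hαe, hβf g h']
        exact hna _ _ heq.symm (H.be g (hmemR g hg h'))
      · by_cases h' : g = e
        · subst h'
          rw [hβe, hαf f h]
          exact (hnb _ _ heq (H.al f (hmemR f hf h))).symm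
        · rw [hαf f h, hβf g h']
          exact H.ab f (hmemR f hf h) g (hmemR g hg h') hfg heq
    · intro f hf g hg hfg heq
      by_cases h : f = e
      · subst h
        have h' : g ≠ f := hfg.symm
        rw [hβe, hβf g h']
        exact hnb _ _ heq.symm (H.be g (hmemR g hg h'))
      · by_cases h' : g = e
        · subst h'
          rw [hβe, hβf f h]
          exact (hnb _ _ heq (H.be f (hmemR f hf h))).symm
        · rw [hβf f h, hβf g h']
          exact H.bb f (hmemR f hf h) g (hmemR g hg h') hfg heq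
    · intro g hg
      rw [H.out g (fun f hf => hg f (hR' f hf))]
      exact hs1o g (hg e heR).1 (hg e heR).2
    · intro f hf
      by_cases h : f = e
      · subst h
        rw [hse, hste]
        exact hs1i
      · have h1 := H.inn f (hmemR f hf h)
        obtain ⟨h2, h3, h4⟩ := htw1 f (hmemR f hf h)
        rwa [hs1o f h h2, hs1o (tw f) h3 h4] at h1
    · intro f hf
      by_cases h : f = e
      · subst h
        rw [hαe, hβe, hse]
        refine ch_congr ?_ hs1
        intro g x y hgxy hrx hcol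
        symm
        apply H.out
        intro f' hf'
        constructor
        · rintro rfl
          rw [hRn g (hR' g hf')] at hcol
          rcases hcol with h5 | h5 <;> exact absurd h5 (by simp)
        · rintro rfl
          have hxT : x ∈ T f := rch_mem hTe huT ⟨_, hvT, hmb⟩ ⟨_, huT, hma⟩ hrx
          have hyT : y ∈ T f := by
            rcases hcol with h5 | h5
            · exact hTe.clsd (tw f') b x y h5 hgxy hxT ⟨_, hvT, hmb⟩
            · exact hTe.clsd (tw f') a x y h5 hgxy hxT ⟨_, huT, hma⟩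
          refine hunb f' (hR' f' hf') (hcol.symm) ?_
          have h6 : (ori G f').1 ∈ G.ends (tw f') := by
            rw [(htw f' (hR' f' hf')).1]
            exact (mem_ends_ori G).2 (Or.inl rfl)
          rw [hgxy, Sym2.mem_iff] at h6
          rcases h6 with h6 | h6
          · rw [h6]; exact hxT
          · rw [h6]; exact hyT
      · rw [hαf f h, hβf f h]
        exact H.chn f (hmemR f hf h)

end Pool.Agent.L7h38.WS
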