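import Pool.Agent.W411.KG.TAS

/-!
# Closed elementary sets around uncoloured edges
-/

set_option autoImplicit false

namespace Pool.Agent.L7h38.WS

open Pool.Agent.W998.KG Pool.Agent.W411.KG
open Pool.Agent.Results.MP_633d19_co.SmallDegree
open Pool.Agent.Results.MP_633d19_co.SmallDegree.MGraph

variable {V E : Type}

/-- closed elementary sets of vertices -/
structure CE (G : MGraph V E) {k : ℕ} (c : E → Option (Fin k)) (T : Set V) : Prop where
  elem : ∀ v ∈ T, ∀ w ∈ T, ∀ a, G.Miss c v a → G.Miss c w a → v = w
  clsd : ∀ e a v w, c e = some a → G.ends e = s(v, w) → v ∈ T → (∃ x ∈ T, G.Miss c x a) → w ∈ T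

theorem exists_ce [Finite V] [Finite E] {G : MGraph V E} {k Δ : ℕ} (hG : ¬ G.Colorable k)
    (hdeg : ∀ u, G.degree u ≤ Δ) (hk : Δ + 1 ≤ k) {c : E → Option (Fin k)} (hc : G.PP c) {e : E}
    (he : ∀ f, c f = none ↔ f = e) : ∃ T : Set V, (∀ v ∈ G.ends e, v ∈ T) ∧ CE G c T := by
  classical
  obtain ⟨u, v, huv⟩ : ∃ u v, G.ends e = s(u, v) := by
    induction h : G.ends e with
    | _ u v => exact ⟨u, v, rfl⟩
  have hne : u ≠ v := by
    intro h
    exact G.loopless e (by rw [huv, h]; simp)
  let P : ℕ → Prop := fun n => 1 ≤ n ∧ ∃ (y : ℕ → V) (f : ℕ → E) (pr : ℕ → ℕ),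
    TT G n y f pr c ∧ y 0 = u ∧ y 1 = v
  have hP1 : P 1 := by
    refine ⟨le_rfl, fun t => if t = 0 then u else v, fun _ => e, fun _ => 0, ⟨hc, ?_, ?_, ?_, ?_, ?_⟩,
      by simp, by simp⟩
    · intro i hi j hj hij
      have hi' : i = 0 ∨ i = 1 := by omega
      have hj' : j = 0 ∨ j = 1 := by omega
      rcases hi' with rfl | rfl <;> rcases hj' with rfl | rfl
      · rfl
      · exact absurd (by simpa using hij) hne
      · exact absurd (by simpa using hij.symm) hne
      · rfl
    · intro i _
      exact Nat.zero_le _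
    · intro i hi
      have : i = 0 := by omega
      subst this
      simpa using huv
    · exact he
    · intro i hi h1
      omega
  have hbd : ∀ n, P n → n ≤ Nat.card V := by
    rintro n ⟨-, y, f, pr, hT, -, -⟩
    have hinj : Function.Injective fun i : Fin (n + 1) => y i.1 := by
      intro i j hij
      exact Fin.ext (hT.inj i.1 (by omega) j.1 (by omega) hij)
    have := Nat.card_le_card_of_injective _ hinj
    rw [Nat.card_eq_fintype_card, Fintype.card_fin] at this
    omega
  obtain ⟨n, hn, hmax⟩ : ∃ n, P n ∧ ∀ m, P m → m ≤ n := by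
    refine ⟨Nat.findGreatest P (Nat.card V), Nat.findGreatest_spec (hbd 1 hP1) hP1, ?_⟩
    intro m hm
    exact Nat.le_findGreatest (hbd m hm) hm
  obtain ⟨hn1, y, f, pr, hT, hy0, hy1⟩ := hn
  refine ⟨{x | ∃ i ≤ n, y i = x}, ?_, ?_, ?_⟩
  · intro x hx
    rw [huv, Sym2.mem_iff] at hx
    rcases hx with rfl | rfl
    · exact ⟨0, by omega, hy0⟩
    · exact ⟨1, hn1, hy1⟩
  · rintro _ ⟨i, hi, rfl⟩ _ ⟨j, hj, rfl⟩ a h1 h2
    rcases lt_trichotomy i j with h | h | h
    · exact absurd (Pool.Agent.W411.KG.main hG hdeg hk hT hn1 i j h hj a h1 h2) id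
    · rw [h]
    · exact absurd (Pool.Agent.W411.KG.main hG hdeg hk hT hn1 j i h hi a h2 h1) id
  · rintro g a _ w hga hg ⟨i, hi, rfl⟩ ⟨_, ⟨j, hj, rfl⟩, hm⟩
    by_contra hw
    have hw' : ∀ t ≤ n, y t ≠ w := fun t ht h => hw ⟨t, ht, h⟩
    have hP : P (n + 1) := by
      refine ⟨by omega, fun t => if t ≤ n then y t else w, fun t => if t < n then f t else g,
        fun t => if t < n then pr t else i, ⟨hc, ?_, ?_, ?_, ?_, ?_⟩, ?_, ?_⟩
      · intro s hs t ht hst
        by_cases h1 : s ≤ n
        · by_cases h2 : t ≤ n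
          · simp only [h1, h2, if_true] at hst
            exact hT.inj s h1 t h2 hst
          · simp only [h1, h2, if_true, if_false] at hst
            exact absurd hst (hw' s h1)
        · by_cases h2 : t ≤ n
          · simp only [h1, h2, if_true, if_false] at hst
            exact absurd hst.symm (hw' t h2)
          · omega
      · intro t ht
        by_cases h1 : t < n
        · simp only [h1, if_true]
          exact hT.le t h1
        · simp only [h1, if_false]
          omega
      · intro t ht
        by_cases h1 : t < n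
        · have h2 : t + 1 ≤ n := h1
          have h3 : pr t ≤ n := (hT.le t h1).trans h1.le
          simp only [h1, h2, h3, if_true]
          exact hT.ed t h1
        · have h2 : ¬ (t + 1 ≤ n) := by omega
          simp only [h1, h2, hi, if_true, if_false]
          exact hg
      · intro e'
        have h1 : 0 < n := hn1
        simp only [h1, if_true]
        exact hT.none_iff e'
      · intro t ht ht1
        by_cases h1 : t < n
        · simp only [h1, if_true]
          obtain ⟨b, hb, s, hs, hms⟩ := hT.col t h1 ht1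
          refine ⟨b, hb, s, hs, ?_⟩
          have h2 : s ≤ n := hs.trans h1.le
          simp only [h2, if_true]
          exact hms
        · simp only [h1, if_false]
          have h2 : t = n := by omega
          refine ⟨a, hga, j, by omega, ?_⟩
          simp only [hj, if_true]
          exact hm
      · simp only [Nat.zero_le, if_true]
        exact hy0
      · simp only [hn1, if_true]
        exact hy1
    have := hmax _ hP
    omega

/-- the subgraph of the edges in `S` -/
def sub (G : MGraph V E) (S : Set E) : MGraph V S where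
  ends := fun e => G.ends e.1
  loopless := fun e => G.loopless e.1

theorem degree_sub_le [Finite E] (G : MGraph V E) (S : Set E) (v : V) :
    (sub G S).degree v ≤ G.degree v := by
  unfold degree
  refine Nat.card_le_card_of_injective
    (fun e : {e : S // v ∈ (sub G S).ends e} => (⟨e.1.1, e.2⟩ : {e : E // v ∈ G.ends e})) ?_
  intro e f h
  simp only [Subtype.mk.injEq] at h
  exact Subtype.ext (Subtype.ext h)

/-- the colouring of a subgraph which contains all coloured edges -/
theorem miss_sub {G : MGraph V E} {k : ℕ} {c : E → Option (Fin k)} {S : Set E}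
    (hS : ∀ e, c e ≠ none → e ∈ S) (v : V) (a : Fin k) :
    (sub G S).Miss (fun e => c e.1) v a ↔ G.Miss c v a := by
  constructor
  · intro h e he hce
    exact h ⟨e, hS e (by rw [hce]; simp)⟩ he hce
  · intro h e he
    exact h e.1 he

theorem ce_of_sub {G : MGraph V E} {k : ℕ} {c : E → Option (Fin k)} {S : Set E}
    (hS : ∀ e, c e ≠ none → e ∈ S) {T : Set V} (h : CE (sub G S) (fun e => c e.1) T) :
    CE G c T := by
  constructor
  · intro v hv w hw a h1 h2
    exact h.elem v hv w hw a ((miss_sub hS v a).2 h1) ((miss_sub hS w a).2 h2)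
  · rintro e a v w he hvw hv ⟨x, hx, hxa⟩
    exact h.clsd ⟨e, hS e (by rw [he]; simp)⟩ a v w he hvw hv ⟨x, hx, (miss_sub hS x a).2 hxa⟩

end Pool.Agent.L7h38.WS
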