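import Pool.Agent.L7h38.WS.Min

/-!
# The double cover of a signed multigraph and the parity of Kempe chains
-/

set_option autoImplicit false

namespace Pool.Agent.L7h38.WS

open Pool.Agent.W998.KG Pool.Agent.W411.KG
open Pool.Agent.Results.MP_633d19_co.SmallDegree
open Pool.Agent.Results.MP_633d19_co.SmallDegree.MGraph

variable {V E : Type}

/-- an orientation of the edges -/
noncomputable def ori (G : MGraph V E) (e : E) : V × V := (G.ends e).out

theorem ends_ori (G : MGraph V E) (e : E) : G.ends e = s((ori G e).1, (ori G e).2) :=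
  (Quot.out_eq (G.ends e)).symm

theorem ori_ne (G : MGraph V E) (e : E) : (ori G e).1 ≠ (ori G e).2 := by
  intro h
  exact G.loopless e (by rw [ends_ori, h]; simp)

/-- the double cover -/
noncomputable def cov (G : MGraph V E) (sg : E → Bool) : MGraph (V × Bool) (E × Bool) where
  ends := fun p => s(((ori G p.1).1, p.2), ((ori G p.1).2, xor p.2 (sg p.1)))
  loopless := by
    intro p h
    simp only [Sym2.isDiag_iff_proj_eq] at h
    exact ori_ne G p.1 (congrArg Prod.fst h)

theorem cov_ends {G : MGraph V E} {sg : E → Bool} {e : E} {u v : V} (h : G.ends e = s(u, v))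
    (i : Bool) : ∃ j, (cov G sg).ends (e, j) = s((u, i), (v, xor i (sg e))) := by
  have h1 := ends_ori G e
  rw [h, Sym2.eq_iff] at h1
  rcases h1 with ⟨h1, h2⟩ | ⟨h1, h2⟩
  · refine ⟨i, ?_⟩
    show s(((ori G e).1, i), ((ori G e).2, xor i (sg e))) = _
    rw [← h1, ← h2]
  · refine ⟨xor i (sg e), ?_⟩
    show s(((ori G e).1, xor i (sg e)), ((ori G e).2, xor (xor i (sg e)) (sg e))) = _
    rw [← h1, ← h2, Sym2.eq_swap]
    congr 3
    cases i <;> cases sg e <;> rfl

theorem cov_inv {G : MGraph V E} {sg : E → Bool} {e : E} {j : Bool} {x y : V × Bool}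
    (h : (cov G sg).ends (e, j) = s(x, y)) :
    G.ends e = s(x.1, y.1) ∧ y.2 = xor x.2 (sg e) := by
  have h1 : s(((ori G e).1, j), ((ori G e).2, xor j (sg e))) = s(x, y) := h
  rw [Sym2.eq_iff] at h1
  rcases h1 with ⟨rfl, rfl⟩ | ⟨rfl, rfl⟩
  · exact ⟨ends_ori G e, rfl⟩
  · refine ⟨?_, ?_⟩
    · rw [ends_ori G e]
      exact Sym2.eq_swap
    · show j = xor (xor j (sg e)) (sg e)
      cases j <;> cases sg e <;> rfl

theorem cov_mem {G : MGraph V E} {sg : E → Bool} {e : E} {j : Bool} {x : V × Bool}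
    (h : x ∈ (cov G sg).ends (e, j)) : x.1 ∈ G.ends e := by
  obtain ⟨y, hy⟩ := Sym2.mem_iff_exists.1 h
  rw [(cov_inv hy).1]
  simp

theorem cov_mem_unique {G : MGraph V E} {sg : E → Bool} {e : E} {j l : Bool} {x : V × Bool}
    (h : x ∈ (cov G sg).ends (e, j)) (h' : x ∈ (cov G sg).ends (e, l)) : j = l := by
  have h1 : x = ((ori G e).1, j) ∨ x = ((ori G e).2, xor j (sg e)) := Sym2.mem_iff.1 h
  have h2 : x = ((ori G e).1, l) ∨ x = ((ori G e).2, xor l (sg e)) := Sym2.mem_iff.1 h'
  have hne := ori_ne G e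
  rcases h1 with rfl | rfl <;> rcases h2 with h2 | h2
  · exact congrArg Prod.snd h2
  · exact absurd (congrArg Prod.fst h2) hne
  · exact absurd (congrArg Prod.fst h2) hne.symm
  · have h3 : xor j (sg e) = xor l (sg e) := congrArg Prod.snd h2
    revert h3
    cases j <;> cases l <;> cases sg e <;> decide

/-- the lifted colouring -/
def cc {k : ℕ} (c : E → Option (Fin k)) : E × Bool → Option (Fin k) := fun p => c p.1

theorem cov_pp {G : MGraph V E} {sg : E → Bool} {k : ℕ} {c : E → Option (Fin k)} (hc : G.PP c) :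
    (cov G sg).PP (cc c) := by
  rintro ⟨e, j⟩ ⟨f, l⟩ x a h1 h2 h3 h4
  have h5 : e = f := hc e f x.1 a (cov_mem h1) (cov_mem h2) h3 h4
  subst h5
  rw [cov_mem_unique h1 h2]

theorem cov_miss {G : MGraph V E} {sg : E → Bool} {k : ℕ} {c : E → Option (Fin k)} {x : V × Bool}
    {a : Fin k} (h : G.Miss c x.1 a) : (cov G sg).Miss (cc c) x a := by
  rintro ⟨e, j⟩ h1 h2
  exact h e (cov_mem h1) h2

/-- the chain of `(u, false)` in the double cover -/
def Ch (G : MGraph V E) (sg : E → Bool) {k : ℕ} (c : E → Option (Fin k)) (a b : Fin k) (u : V) :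
    V × Bool → Prop := Rch (cov G sg) (cc c) a b (u, false)

theorem ch_step {G : MGraph V E} {sg : E → Bool} {k : ℕ} {c : E → Option (Fin k)} {a b : Fin k}
    {u : V} {e : E} {x y : V} {i : Bool} (h : Ch G sg c a b u (x, i)) (he : G.ends e = s(x, y))
    (hcol : c e = some a ∨ c e = some b) : Ch G sg c a b u (y, xor i (sg e)) := by
  obtain ⟨j, hj⟩ := cov_ends (sg := sg) he i
  exact Relation.ReflTransGen.tail h ⟨(e, j), hj, hcol⟩

theorem ch_proj {G : MGraph V E} {sg : E → Bool} {k : ℕ} {c : E → Option (Fin k)} {a b : Fin k}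
    {u : V} {x : V × Bool} (h : Ch G sg c a b u x) : Rch G c a b u x.1 := by
  unfold Ch at h
  induction h with
  | refl => exact Relation.ReflTransGen.refl
  | tail _ hst ih =>
    obtain ⟨⟨e, j⟩, h1, h2⟩ := hst
    exact Relation.ReflTransGen.tail ih ⟨e, (cov_inv h1).1, h2⟩

theorem ch_lift {G : MGraph V E} {sg : E → Bool} {k : ℕ} {c : E → Option (Fin k)} {a b : Fin k}
    {u v : V} (h : Rch G c a b u v) : ∃ i, Ch G sg c a b u (v, i) := by
  induction h with
  | refl => exact ⟨false, Relation.ReflTransGen.refl⟩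
  | tail _ hst ih =>
    obtain ⟨i, hi⟩ := ih
    obtain ⟨e, h1, h2⟩ := hst
    exact ⟨_, ch_step hi h1 h2⟩

/-- the chain does not depend on the signs of the edges which it does not use -/
theorem ch_congr {G : MGraph V E} {sg sg' : E → Bool} {k : ℕ} {c : E → Option (Fin k)}
    {a b : Fin k} {u : V} (h : ∀ e x y, G.ends e = s(x, y) → Rch G c a b u x →
      (c e = some a ∨ c e = some b) → sg e = sg' e) {x : V × Bool} (hx : Ch G sg c a b u x) :
    Ch G sg' c a b u x := by
  unfold Ch at hx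
  induction hx with
  | refl => exact Relation.ReflTransGen.refl
  | @tail x y hxy hst ih =>
    obtain ⟨⟨e, j⟩, h1, h2⟩ := hst
    obtain ⟨h3, h4⟩ := cov_inv h1
    have h5 := ch_step ih h3 h2
    have h6 := h e x.1 y.1 h3 (ch_proj hxy) h2
    rw [← h6, ← h4] at h5
    exact h5

/-- three vertices of the double cover with a missing colour in one chain -/
theorem ch_three [Finite V] {G : MGraph V E} {sg : E → Bool} {k : ℕ} {c : E → Option (Fin k)}
    (hc : G.PP c) {a b : Fin k} {u : V} {x y : V × Bool} (hu : G.Miss c u a ∨ G.Miss c u b)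
    (hx : G.Miss c x.1 a ∨ G.Miss c x.1 b) (hy : G.Miss c y.1 a ∨ G.Miss c y.1 b)
    (h1 : Ch G sg c a b u x) (h2 : Ch G sg c a b u y) (n1 : (u, false) ≠ x)
    (n2 : (u, false) ≠ y) : x = y := by
  by_contra n3
  exact three (cov_pp hc) (hu.imp (fun h => cov_miss h) (fun h => cov_miss h))
    (hx.imp (fun h => cov_miss h) (fun h => cov_miss h))
    (hy.imp (fun h => cov_miss h) (fun h => cov_miss h)) h1 h2 n1 n2 n3

end Pool.Agent.L7h38.WS
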