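import Pool.Agent.L7h38.WS.Assign

/-!
# Colouring the double cover
-/

set_option autoImplicit false

namespace Pool.Agent.L7h38.WS

open Pool.Agent.W998.KG Pool.Agent.W411.KG
open Pool.Agent.Results.MP_633d19_co.SmallDegree
open Pool.Agent.Results.MP_633d19_co.SmallDegree.MGraph

variable {V E : Type}

/-- a colouring of the edges of the double cover (`D e u i` is the colour of the edge over `e`
which contains `(u, i)`) and of the edges `(u, false) (u, true)` -/
structure CovCol (G : MGraph V E) (k : ℕ) (sg : E → Bool) (D : E → V → Bool → Fin k)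
    (δ : V → Fin k) : Prop where
  mat : ∀ e u v i, G.ends e = s(u, v) → D e u i = D e v (xor i (sg e))
  prp : ∀ e f u i, e ≠ f → u ∈ G.ends e → u ∈ G.ends f → D e u i ≠ D f u i
  del : ∀ e u i, u ∈ G.ends e → D e u i ≠ δ u

theorem final [Finite V] [Finite E] {G : MGraph V E} {k : ℕ}
    {c : E → Option (Fin k)} (hc : G.PP c) (hmiss : ∀ v, ∃ a, G.Miss c v a) {tw : E → E}
    {T : E → Set V} {R : Finset E} (hR : ∀ e, e ∈ R ↔ c e = none) (hT : ∀ e ∈ R, CE G c (T e))
    (hTm : ∀ e ∈ R, ∀ v ∈ G.ends e, v ∈ T e) {Av : V → Finset (Fin k)}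
    (hAv : ∀ v, ∀ a ∈ Av v, G.Miss c v a) {sg sg' : E → Bool} {α β : E → Fin k} {δ : V → Fin k}
    (H : Asg G c tw R Av sg sg' α β δ) :
    ∃ D : E → V → Bool → Fin k, CovCol G k sg' D δ := by
  classical
  have huT : ∀ e ∈ R, (ori G e).1 ∈ T e := fun e he => hTm e he _ ((mem_ends_ori G).2 (Or.inl rfl))
  have hvT : ∀ e ∈ R, (ori G e).2 ∈ T e := fun e he => hTm e he _ ((mem_ends_ori G).2 (Or.inr rfl))
  have hma : ∀ e ∈ R, G.Miss c (ori G e).1 (α e) := fun e he => hAv _ _ (H.al e he)
  have hmb : ∀ e ∈ R, G.Miss c (ori G e).2 (β e) := fun e he => hAv _ _ (H.be e he)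
  have hmd : ∀ v, G.Miss c v (δ v) := fun v => hAv _ _ (H.del v)
  let C : E → V × Bool → Prop := fun e p => Ch G sg' c (β e) (α e) (ori G e).1 p
  have hCT : ∀ e ∈ R, ∀ p, C e p → p.1 ∈ T e := fun e he p hp =>
    rch_mem (hT e he) (huT e he) ⟨_, hvT e he, hmb e he⟩ ⟨_, huT e he, hma e he⟩ (ch_proj hp)
  have hCu : ∀ e, C e ((ori G e).1, false) := fun e => Relation.ReflTransGen.refl
  have hCv : ∀ e ∈ R, C e ((ori G e).2, !sg' e) := fun e he => H.chn e he
  have hCu' : ∀ e ∈ R, ¬ C e ((ori G e).1, true) := by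
    intro e he h
    have := ch_three hc (Or.inr (hma e he)) (Or.inr (hma e he)) (Or.inl (hmb e he)) h (hCv e he)
      (by simp) (by intro h; exact ori_ne G e (congrArg Prod.fst h))
    exact ori_ne G e (congrArg Prod.fst this)
  have hCv' : ∀ e ∈ R, ¬ C e ((ori G e).2, sg' e) := by
    intro e he h
    have := ch_three hc (Or.inr (hma e he)) (Or.inl (hmb e he)) (Or.inl (hmb e he)) h (hCv e he)
      (by intro h; exact ori_ne G e (congrArg Prod.fst h))
      (by intro h; exact ori_ne G e (congrArg Prod.fst h))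
    have h1 : sg' e = !sg' e := congrArg Prod.snd this
    revert h1
    cases sg' e <;> decide
  -- intersecting sets belong to edges with different colours
  have hdis : ∀ e ∈ R, ∀ f ∈ R, ∀ x, x ∈ T e → x ∈ T f → ∀ γ, (γ = α e ∨ γ = β e) →
      (γ = α f ∨ γ = β f) → e = f := by
    intro e he f hf x hxe hxf γ h1 h2
    by_contra hne
    rcases h1 with rfl | rfl <;> rcases h2 with h2 | h2
    · exact H.aa e he f hf hne (union hc hmiss (hT e he) (hT f hf) hxe hxf (huT e he) (huT f hf)
        (hma e he) (h2 ▸ hma f hf)) h2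
    · exact H.ab e he f hf hne (union hc hmiss (hT e he) (hT f hf) hxe hxf (huT e he) (hvT f hf)
        (hma e he) (h2 ▸ hmb f hf)) h2
    · exact H.ab f hf e he (Ne.symm hne) (union hc hmiss (hT f hf) (hT e he) hxf hxe (huT f hf)
        (hvT e he) (hma f hf) (h2 ▸ hmb e he)) h2.symm
    · exact H.bb e he f hf hne (union hc hmiss (hT e he) (hT f hf) hxe hxf (hvT e he) (hvT f hf)
        (hmb e he) (h2 ▸ hmb f hf)) h2
  let A : E → Fin k → V × Bool → Prop := fun e γ p => e ∈ R ∧ (γ = α e ∨ γ = β e) ∧ C e p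
  have hAu : ∀ e f γ p, A e γ p → A f γ p → e = f := by
    rintro e f γ p ⟨h1, h2, h3⟩ ⟨h4, h5, h6⟩
    exact hdis e h1 f h4 p.1 (hCT e h1 p h3) (hCT f h4 p h6) γ h2 h5
  let π : V × Bool → Fin k → Fin k := fun p γ =>
    if h : ∃ e, A e γ p then Equiv.swap (α h.choose) (β h.choose) γ else γ
  have hπ1 : ∀ e γ p, A e γ p → π p γ = Equiv.swap (α e) (β e) γ := by
    intro e γ p h
    have h1 : ∃ e, A e γ p := ⟨e, h⟩
    have h2 : h1.choose = e := hAu _ _ _ _ h1.choose_spec h
    simp only [π, dif_pos h1, h2]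
  have hπ2 : ∀ γ p, (∀ e, ¬ A e γ p) → π p γ = γ := by
    intro γ p h
    have h1 : ¬ ∃ e, A e γ p := fun ⟨e, he⟩ => h e he
    simp only [π, dif_neg h1]
  have hπ3 : ∀ p γ, π p (π p γ) = γ := by
    intro p γ
    by_cases h : ∃ e, A e γ p
    · obtain ⟨e, he⟩ := h
      rw [hπ1 e γ p he]
      have h1 : A e (Equiv.swap (α e) (β e) γ) p := by
        refine ⟨he.1, ?_, he.2.2⟩
        rcases he.2.1 with h2 | h2
        · right; rw [h2, Equiv.swap_apply_left]
        · left; rw [h2, Equiv.swap_apply_right]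
      rw [hπ1 e _ p h1, Equiv.swap_apply_self]
    · have h1 : π p γ = γ := hπ2 γ p (fun e he => h ⟨e, he⟩)
      rw [h1, h1]
  have hπi : ∀ p γ γ', π p γ = π p γ' → γ = γ' := by
    intro p γ γ' h
    rw [← hπ3 p γ, h, hπ3]
  -- coloured edges
  have hπ4 : ∀ g x y i γ, c g = some γ → G.ends g = s(x, y) →
      π (x, i) γ = π (y, xor i (sg' g)) γ := by
    intro g x y i γ hg hxy
    have h1 : ∀ e, A e γ (x, i) → A e γ (y, xor i (sg' g)) := by
      rintro e ⟨h2, h3, h4⟩
      refine ⟨h2, h3, ch_step h4 hxy ?_⟩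
      rw [hg]
      rcases h3 with h3 | h3
      · right; rw [h3]
      · left; rw [h3]
    have h2 : ∀ e, A e γ (y, xor i (sg' g)) → A e γ (x, i) := by
      rintro e ⟨h2, h3, h4⟩
      refine ⟨h2, h3, ?_⟩
      have h5 := ch_step h4 (hxy.trans Sym2.eq_swap) (by
        rw [hg]
        rcases h3 with h3 | h3
        · right; rw [h3]
        · left; rw [h3])
      have h6 : xor (xor i (sg' g)) (sg' g) = i := by cases i <;> cases sg' g <;> rfl
      rwa [h6] at h5
    by_cases h : ∃ e, A e γ (x, i)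
    · obtain ⟨e, he⟩ := h
      rw [hπ1 e γ _ he, hπ1 e γ _ (h1 e he)]
    · rw [hπ2 γ (x, i) (fun e he => h ⟨e, he⟩), hπ2 γ _ (fun e he => h ⟨e, h2 e he⟩)]
  -- uncoloured edges
  have hu0 : ∀ e ∈ R, π ((ori G e).1, false) (α e) = β e := by
    intro e he
    rw [hπ1 e _ _ ⟨he, Or.inl rfl, hCu e⟩, Equiv.swap_apply_left]
  have hu1 : ∀ e ∈ R, π ((ori G e).1, true) (α e) = α e := by
    intro e he
    apply hπ2
    rintro f ⟨hf, h1, h2⟩
    have h3 : e = f := hdis e he f hf (ori G e).1 (huT e he) (hCT f hf _ h2) (α e) (Or.inl rfl) h1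
    subst h3
    exact hCu' e he h2
  have hv0 : ∀ e ∈ R, π ((ori G e).2, sg' e) (β e) = β e := by
    intro e he
    apply hπ2
    rintro f ⟨hf, h1, h2⟩
    have h3 : e = f := hdis e he f hf (ori G e).2 (hvT e he) (hCT f hf _ h2) (β e) (Or.inr rfl) h1
    subst h3
    exact hCv' e he h2
  have hv1 : ∀ e ∈ R, π ((ori G e).2, !sg' e) (β e) = α e := by
    intro e he
    rw [hπ1 e _ _ ⟨he, Or.inr rfl, hCv e he⟩, Equiv.swap_apply_right]
  have hδ : ∀ x i, π (x, i) (δ x) = δ x := by
    intro x i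
    apply hπ2
    rintro e ⟨he, h1, h2⟩
    have hx : x ∈ T e := hCT e he _ h2
    rcases h1 with h1 | h1
    · have h3 : x = (ori G e).1 := (hT e he).elem x hx _ (huT e he) (α e) (h1 ▸ hmd x) (hma e he)
      subst h3
      exact H.ald e he h1.symm
    · have h3 : x = (ori G e).2 := (hT e he).elem x hx _ (hvT e he) (β e) (h1 ▸ hmd x) (hmb e he)
      subst h3
      exact H.bed e he h1.symm
  let κ : E → V → Fin k := fun g x =>
    (c g).getD (if x = (ori G g).1 then α g else β g)
  have hκ1 : ∀ g x γ, c g = some γ → κ g x = γ := by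
    intro g x γ h
    simp only [κ, h, Option.getD_some]
  have hκ2 : ∀ e ∈ R, κ e (ori G e).1 = α e := by
    intro e he
    simp only [κ, (hR e).1 he, Option.getD_none, if_true]
  have hκ3 : ∀ e ∈ R, κ e (ori G e).2 = β e := by
    intro e he
    have := (ori_ne G e).symm
    simp only [κ, (hR e).1 he, Option.getD_none, this, if_false]
  have hκm : ∀ e ∈ R, ∀ x ∈ G.ends e, G.Miss c x (κ e x) := by
    intro e he x hx
    rcases (mem_ends_ori G).1 hx with rfl | rfl
    · rw [hκ2 e he]; exact hma e he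
    · rw [hκ3 e he]; exact hmb e he
  have hcase : ∀ g, (∃ γ, c g = some γ) ∨ g ∈ R := by
    intro g
    cases h : c g with
    | none => exact Or.inr ((hR g).2 h)
    | some γ => exact Or.inl ⟨γ, rfl⟩
  have hκd : ∀ e f x, e ≠ f → x ∈ G.ends e → x ∈ G.ends f → κ e x ≠ κ f x := by
    intro e f x hef hxe hxf heq
    rcases hcase e with ⟨γ, he⟩ | he
    · rcases hcase f with ⟨γ', hf⟩ | hf
      · rw [hκ1 e x γ he, hκ1 f x γ' hf] at heq
        exact hef (hc e f x γ hxe hxf he (by rw [hf, heq]))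
      · rw [hκ1 e x γ he] at heq
        exact hκm f hf x hxf e hxe (by rw [← heq, he])
    · rcases hcase f with ⟨γ', hf⟩ | hf
      · rw [hκ1 f x γ' hf] at heq
        exact hκm e he x hxe f hxf (by rw [heq, hf])
      · rcases (mem_ends_ori G).1 hxe with h1 | h1 <;> rcases (mem_ends_ori G).1 hxf with h2 | h2
        · have h3 : κ e x = α e := by rw [h1]; exact hκ2 e he
          have h4 : κ f x = α f := by rw [h2]; exact hκ2 f hf
          exact H.aa e he f hf hef (h1.symm.trans h2) (h3.symm.trans (heq.trans h4))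
        · have h3 : κ e x = α e := by rw [h1]; exact hκ2 e he
          have h4 : κ f x = β f := by rw [h2]; exact hκ3 f hf
          exact H.ab e he f hf hef (h1.symm.trans h2) (h3.symm.trans (heq.trans h4))
        · have h3 : κ e x = β e := by rw [h1]; exact hκ3 e he
          have h4 : κ f x = α f := by rw [h2]; exact hκ2 f hf
          exact H.ab f hf e he hef.symm (h2.symm.trans h1) (h4.symm.trans (heq.symm.trans h3))
        · have h3 : κ e x = β e := by rw [h1]; exact hκ3 e he
          have h4 : κ f x = β f := by rw [h2]; exact hκ3 f hf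
          exact H.bb e he f hf hef (h1.symm.trans h2) (h3.symm.trans (heq.trans h4))
  have hmat : ∀ e ∈ R, ∀ i, π ((ori G e).1, i) (α e) = π ((ori G e).2, xor i (sg' e)) (β e) := by
    intro e he i
    cases i
    · rw [hu0 e he]
      have : xor false (sg' e) = sg' e := by cases sg' e <;> rfl
      rw [this, hv0 e he]
    · rw [hu1 e he]
      have : xor true (sg' e) = !sg' e := by cases sg' e <;> rfl
      rw [this, hv1 e he]
  refine ⟨fun g x i => π (x, i) (κ g x), ?_, ?_, ?_⟩
  · intro g x y i hxy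
    rcases hcase g with ⟨γ, hg⟩ | hg
    · show π (x, i) (κ g x) = π (y, xor i (sg' g)) (κ g y)
      rw [hκ1 g x γ hg, hκ1 g y γ hg]
      exact hπ4 g x y i γ hg hxy
    · show π (x, i) (κ g x) = π (y, xor i (sg' g)) (κ g y)
      have h1 := ends_ori G g
      rw [hxy, Sym2.eq_iff] at h1
      rcases h1 with ⟨h1, h2⟩ | ⟨h1, h2⟩
      · rw [h1, h2, hκ2 g hg, hκ3 g hg]
        exact hmat g hg i
      · rw [h1, h2, hκ2 g hg, hκ3 g hg, hmat g hg (xor i (sg' g))]
        congr 2
        cases i <;> cases sg' g <;> rfl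
  · intro e f x i hef hxe hxf heq
    exact hκd e f x hef hxe hxf (hπi _ _ _ heq)
  · intro e x i hxe heq
    have h1 : π (x, i) (κ e x) = π (x, i) (δ x) := heq.trans (hδ x i).symm
    have h2 := hπi _ _ _ h1
    rcases hcase e with ⟨γ, he⟩ | he
    · rw [hκ1 e x γ he] at h2
      exact hmd x e hxe (by rw [← h2, he])
    · rcases (mem_ends_ori G).1 hxe with h3 | h3
      · subst h3
        rw [hκ2 e he] at h2
        exact H.ald e he h2
      · subst h3
        rw [hκ3 e he] at h2
        exact H.bed e he h2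

/-- **The double cover of a multigraph with signs, together with the perfect matching between the
two sheets**: if parallel edges have different signs then `k` colours suffice as soon as `k` is larger
than all degrees. -/
theorem main_cover [Finite V] [Finite E] (G : MGraph V E) (k : ℕ)
    (hdeg : ∀ v, G.degree v + 1 ≤ k) (sgn : E → Bool)
    (hpar : ∀ e f, e ≠ f → G.ends e = G.ends f → sgn e ≠ sgn f)
    (hex : ∃ c : E → Option (Fin k), G.PP c ∧ TwOK G c) :
    ∃ (D : E → V → Bool → Fin k) (δ : V → Fin k), CovCol G k sgn D δ := by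
  classical
  have := Fintype.ofFinite E
  have hpar' : ∀ e f, G.ends e = G.ends f → sgn e = sgn f → e = f := by
    intro e f h1 h2
    by_contra h3
    exact hpar e f h3 h1 h2
  obtain ⟨c, hc, htw, hT⟩ := exists_min hdeg hex
  have hm := card_miss hdeg c
  have hmiss : ∀ v, ∃ a, G.Miss c v a := by
    intro v
    have h1 := hm v
    have h2 : 0 < {a | G.Miss c v a}.ncard := by omega
    obtain ⟨a, ha⟩ := (Set.ncard_pos (Set.toFinite _)).1 h2
    exact ⟨a, ha⟩
  have htw' : ∀ e, ∃ e', c e = none → G.ends e' = G.ends e ∧ c e' ≠ none := by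
    intro e
    by_cases h : c e = none
    · obtain ⟨e', h1⟩ := htw e h
      exact ⟨e', fun _ => h1⟩
    · exact ⟨e, fun h' => absurd h' h⟩
  choose tw htw using htw'
  have hT' : ∀ e, ∃ T : Set V, c e = none → (∀ v ∈ G.ends e, v ∈ T) ∧ CE G c T := by
    intro e
    by_cases h : c e = none
    · obtain ⟨T, h1⟩ := hT e h
      exact ⟨T, fun _ => h1⟩
    · exact ⟨∅, fun h' => absurd h' h⟩
  choose T hT using hT'
  let R : Finset E := Finset.univ.filter fun e => c e = none
  have hR : ∀ e, e ∈ R ↔ c e = none := by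
    intro e
    simp [R]
  let Av : V → Finset (Fin k) := fun v => Finset.univ.filter fun a => G.Miss c v a
  have hAv : ∀ v, ∀ a ∈ Av v, G.Miss c v a := by
    intro v a ha
    exact (Finset.mem_filter.1 ha).2
  have hne : ∀ e ∈ R, e ≠ tw e := by
    intro e he h
    have h1 := (htw e ((hR e).1 he)).2
    rw [← h] at h1
    exact h1 ((hR e).1 he)
  have hsg : ∀ e ∈ R, sgn e ≠ sgn (tw e) := fun e he =>
    hpar e (tw e) (hne e he) (htw e ((hR e).1 he)).1.symm
  obtain ⟨sg', α, β, δ, H⟩ := assign hc hmiss (tw := tw) T R.card R rfl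
    (fun e he => (hT e ((hR e).1 he)).2) (fun e he => (hT e ((hR e).1 he)).1)
    (fun e he => (hR e).1 he) (fun e he => htw e ((hR e).1 he)) (by
      intro e he f hf hef
      apply hpar'
      · rw [← (htw e ((hR e).1 he)).1, ← (htw f ((hR f).1 hf)).1, hef]
      · have h1 := hsg e he
        have h2 := hsg f hf
        rw [hef] at h1
        revert h1 h2
        cases sgn e <;> cases sgn f <;> cases sgn (tw f) <;> decide) Av hAv (by
      intro v
      refine le_trans (le_of_eq ?_) ((hm v).trans (le_of_eq ?_))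
      · congr 2
        ext e
        simp only [Set.mem_ofPred_eq]
        rw [hR]
      · rw [← Set.ncard_coe_finset]
        congr 1
        ext a
        simp [Av]) sgn hsg
  obtain ⟨D, hD⟩ := final hc hmiss hR (fun e he => (hT e ((hR e).1 he)).2)
    (fun e he => (hT e ((hR e).1 he)).1) hAv H
  -- back to the original signs
  have hτ : ∀ g, ∃ g', G.ends g' = G.ends g ∧ sg' g' = sgn g := by
    intro g
    by_cases h : sg' g = sgn g
    · exact ⟨g, rfl, h⟩
    · have h1 : ∃ f ∈ R, g = f ∨ g = tw f := by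
        by_contra h2
        push Not at h2
        exact h (H.out g h2)
      obtain ⟨f, hf, h2⟩ := h1
      have h3 := (htw f ((hR f).1 hf)).1
      rcases H.inn f hf with ⟨h4, h5⟩ | ⟨h4, h5⟩
      · rcases h2 with rfl | rfl
        · exact absurd h4 h
        · exact absurd h5 h
      · rcases h2 with rfl | rfl
        · exact ⟨tw g, h3, h5⟩
        · exact ⟨f, h3.symm, h4⟩
  choose τ hτ1 hτ2 using hτ
  have hτi : ∀ e f, τ e = τ f → e = f := by
    intro e f h
    apply hpar'
    · rw [← hτ1 e, ← hτ1 f, h]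
    · rw [← hτ2 e, ← hτ2 f, h]
  refine ⟨fun e u i => D (τ e) u i, δ, ?_, ?_, ?_⟩
  · intro e u v i huv
    have h1 := hD.mat (τ e) u v i (by rw [hτ1, huv])
    rw [hτ2] at h1
    exact h1
  · intro e f u i hef hue huf
    exact hD.prp (τ e) (τ f) u i (fun h => hef (hτi e f h)) (by rw [hτ1]; exact hue)
      (by rw [hτ1]; exact huf)
  · intro e u i hue
    exact hD.del (τ e) u i (by rw [hτ1]; exact hue)

end Pool.Agent.L7h38.WS
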