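import Pool.Agent.L7h38.WS.Union

/-!
# Colourings with as few uncoloured edges as possible
-/

set_option autoImplicit false

namespace Pool.Agent.L7h38.WS

open Pool.Agent.W998.KG Pool.Agent.W411.KG
open Pool.Agent.Results.MP_633d19_co.SmallDegree
open Pool.Agent.Results.MP_633d19_co.SmallDegree.MGraph

variable {V E : Type}

/-- every uncoloured edge has a coloured parallel edge -/
def TwOK (G : MGraph V E) {k : ℕ} (c : E → Option (Fin k)) : Prop :=
  ∀ e, c e = none → ∃ e', G.ends e' = G.ends e ∧ c e' ≠ none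

theorem exists_min [Finite V] [Finite E] {G : MGraph V E} {k : ℕ}
    (hdeg : ∀ v, G.degree v + 1 ≤ k) (hex : ∃ c : E → Option (Fin k), G.PP c ∧ TwOK G c) :
    ∃ c : E → Option (Fin k), G.PP c ∧ TwOK G c ∧
      ∀ e, c e = none → ∃ T : Set V, (∀ v ∈ G.ends e, v ∈ T) ∧ CE G c T := by
  classical
  let P : ℕ → Prop := fun n => ∃ c : E → Option (Fin k), G.PP c ∧ TwOK G c ∧
    {e | c e = none}.ncard = n
  have hP : ∃ n, P n := by
    obtain ⟨c, h1, h2⟩ := hex
    exact ⟨_, c, h1, h2, rfl⟩
  obtain ⟨c, hc, htw, hcard⟩ := Nat.find_spec hP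
  refine ⟨c, hc, htw, ?_⟩
  intro e he
  let S : Set E := {f | c f ≠ none ∨ f = e}
  have hS : ∀ f, c f ≠ none → f ∈ S := fun f h => Or.inl h
  have hnc : ¬ (sub G S).Colorable k := by
    rintro ⟨d, hd⟩
    let c' : E → Option (Fin k) := fun f => if h : f ∈ S then some (d ⟨f, h⟩) else none
    have hc' : G.PP c' := by
      intro f g v a hf hg h1 h2
      by_cases h3 : f ∈ S
      · by_cases h4 : g ∈ S
        · simp only [c', dif_pos h3, Option.some.injEq] at h1
          simp only [c', dif_pos h4, Option.some.injEq] at h2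
          by_contra hne
          exact hd ⟨f, h3⟩ ⟨g, h4⟩ (fun h => hne (congrArg Subtype.val h)) ⟨v, hf, hg⟩
            (h1.trans h2.symm)
        · simp only [c', dif_neg h4] at h2
          exact absurd h2 (by simp)
      · simp only [c', dif_neg h3] at h1
        exact absurd h1 (by simp)
    have hnone : ∀ f, c' f = none ↔ (c f = none ∧ f ≠ e) := by
      intro f
      by_cases h3 : f ∈ S
      · simp only [c', dif_pos h3]
        constructor
        · intro h; exact absurd h (by simp)
        · rintro ⟨h1, h2⟩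
          rcases h3 with h3 | h3
          · exact absurd h1 h3
          · exact absurd h3 h2
      · simp only [c', dif_neg h3, true_iff]
        refine ⟨?_, fun h => h3 (Or.inr h)⟩
        by_contra h
        exact h3 (Or.inl h)
    have htw' : TwOK G c' := by
      intro f hf
      obtain ⟨f', h1, h2⟩ := htw f ((hnone f).1 hf).1
      refine ⟨f', h1, fun h => h2 ((hnone f').1 h).1⟩
    have hlt : {f | c' f = none}.ncard < {f | c f = none}.ncard := by
      apply Set.ncard_lt_ncard
      · refine ⟨fun f hf => ((hnone f).1 hf).1, fun h => ?_⟩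
        have := h (show e ∈ {f | c f = none} from he)
        exact ((hnone e).1 this).2 rfl
      · exact Set.toFinite _
    have := Nat.find_min hP (m := {f | c' f = none}.ncard) (by rw [← hcard]; exact hlt)
    exact this ⟨c', hc', htw', rfl⟩
  have hdeg' : ∀ u, (sub G S).degree u ≤ k - 1 := by
    intro u
    have h1 := degree_sub_le G S u
    have h2 := hdeg u
    omega
  have hk : k - 1 + 1 ≤ k := by
    obtain ⟨u, v, huv⟩ : ∃ u v, G.ends e = s(u, v) := by
      induction h : G.ends e with
      | _ u v => exact ⟨u, v, rfl⟩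
    have := hdeg u
    omega
  have heS : e ∈ S := Or.inr rfl
  obtain ⟨T, h1, h2⟩ := exists_ce (c := fun f : S => c f.1) hnc hdeg' hk (by
    intro f g v a hf hg h1 h2
    exact Subtype.ext (hc f.1 g.1 v a hf hg h1 h2)) (e := ⟨e, heS⟩) (by
    intro f
    constructor
    · intro h
      rcases f.2 with h1 | h1
      · exact absurd h h1
      · exact Subtype.ext h1
    · rintro rfl
      exact he)
  exact ⟨T, h1, ce_of_sub hS h2⟩

/-- number of missing colours -/
theorem card_miss [Finite E] {G : MGraph V E} {k : ℕ} (hdeg : ∀ v, G.degree v + 1 ≤ k)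
    (c : E → Option (Fin k)) (v : V) :
    1 + {e | c e = none ∧ v ∈ G.ends e}.ncard ≤ {a | G.Miss c v a}.ncard := by
  classical
  have := Fintype.ofFinite E
  have h1 : {e | v ∈ G.ends e}.ncard = G.degree v := by
    unfold degree
    rw [← Nat.card_coe_set_eq]
    rfl
  have h2 : {a : Fin k | ¬ G.Miss c v a}.ncard ≤ {e | c e ≠ none ∧ v ∈ G.ends e}.ncard := by
    have hsub : (some '' {a : Fin k | ¬ G.Miss c v a}) ⊆ c '' {e | c e ≠ none ∧ v ∈ G.ends e} := by
      rintro _ ⟨a, ha, rfl⟩
      have ha' : ¬ G.Miss c v a := ha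
      unfold Miss at ha'
      push Not at ha'
      obtain ⟨e, he, hea⟩ := ha'
      exact ⟨e, ⟨by rw [hea]; simp, he⟩, hea⟩
    have h3 := Set.ncard_le_ncard hsub (Set.toFinite _)
    rw [Set.ncard_image_of_injective _ (Option.some_injective _)] at h3
    exact h3.trans (Set.ncard_image_le (Set.toFinite _))
  have h3 : {e | c e = none ∧ v ∈ G.ends e}.ncard + {e | c e ≠ none ∧ v ∈ G.ends e}.ncard =
      {e | v ∈ G.ends e}.ncard := by
    rw [← Set.ncard_union_eq]
    · congr 1
      ext e
      simp only [Set.mem_union, Set.mem_ofPred_eq]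
      tauto
    · rw [Set.disjoint_left]
      rintro e ⟨h4, -⟩ ⟨h5, -⟩
      exact h5 h4
  have h4 : {a : Fin k | G.Miss c v a}.ncard + {a : Fin k | ¬ G.Miss c v a}.ncard = k := by
    rw [← Set.ncard_union_eq]
    · have : {a : Fin k | G.Miss c v a} ∪ {a : Fin k | ¬ G.Miss c v a} = Set.univ := by
        ext a
        simp only [Set.mem_union, Set.mem_ofPred_eq, Set.mem_univ, iff_true]
        tauto
      rw [this, Set.ncard_univ, Nat.card_eq_fintype_card, Fintype.card_fin]
    · rw [Set.disjoint_left]
      rintro a h4 h5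
      exact h5 h4
  have h5 := hdeg v
  omega

end Pool.Agent.L7h38.WS
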