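import Pool.Agent.L7h38.WS.Final
import Pool.Agent.X76.Wreath

/-!
# The first colouring, and wreath products with matchings
-/

set_option autoImplicit false

namespace Pool.Agent.L7h38.WS

open Pool.Agent.W998.KG Pool.Agent.W411.KG
open Pool.Agent.Results.MP_633d19_co.SmallDegree
open Pool.Agent.Results.MP_633d19_co.SmallDegree.MGraph
open Pool.Agent.X76.Wr

/-- one edge of each class of parallel edges can be coloured -/
theorem exists_start {V E : Type} [Fintype V] [Finite E] (G : MGraph V E) (k : ℕ)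
    (hdeg : ∀ v, G.degree v + 1 ≤ k) : ∃ c : E → Option (Fin k), G.PP c ∧ TwOK G c := by
  classical
  rcases isEmpty_or_nonempty V with hV | ⟨⟨v₀⟩⟩
  · exact ⟨fun _ => none, fun _ _ v => (hV.false v).elim, fun e => (hV.false (ori G e).1).elim⟩
  have hk : 1 ≤ k := by
    have := hdeg v₀
    omega
  let H : SimpleGraph V :=
    { Adj := fun x y => ∃ e, G.ends e = s(x, y)
      symm := ⟨fun x y ⟨e, he⟩ => ⟨e, he.trans Sym2.eq_swap⟩⟩
      loopless := ⟨fun x ⟨e, he⟩ => G.loopless e (by rw [he]; simp)⟩ }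
  have hH : ∀ x y, H.Adj x y ↔ ∃ e, G.ends e = s(x, y) := fun x y => Iff.rfl
  have hHd : ∀ v, H.degree v ≤ k - 1 := by
    intro v
    refine le_trans ?_ (Nat.le_sub_one_of_lt (hdeg v))
    have hex : ∀ y : H.neighborSet v, ∃ e, G.ends e = s(v, y.1) := fun y => y.2
    choose g hg using hex
    unfold degree
    rw [← SimpleGraph.card_neighborSet_eq_degree, ← Nat.card_eq_fintype_card]
    refine Nat.card_le_card_of_injective
      (fun y => (⟨g y, by rw [hg]; simp⟩ : {e : E // v ∈ G.ends e})) ?_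
    intro y z h
    simp only [Subtype.mk.injEq] at h
    have h1 := hg y
    rw [h, hg z, Sym2.congr_right] at h1
    exact Subtype.ext h1.symm
  obtain ⟨cH, hcH⟩ := vizing_EC H (k - 1) hHd
  have hk' : k - 1 + 1 = k := by omega
  rw [hk'] at hcH
  have hadj : ∀ e, H.Adj (ori G e).1 (ori G e).2 := fun e => ⟨e, ends_ori G e⟩
  have hrep : ∀ p : Sym2 V, ∃ r : Option E, (∃ e, G.ends e = p) → ∃ e, r = some e ∧ G.ends e = p := by
    intro p
    by_cases h : ∃ e, G.ends e = p
    · obtain ⟨e, he⟩ := h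
      exact ⟨some e, fun _ => ⟨e, rfl, he⟩⟩
    · exact ⟨none, fun h' => absurd h' h⟩
  choose rep hrep using hrep
  let c : E → Option (Fin k) := fun e =>
    if rep (G.ends e) = some e then some ⟨cH (ori G e).1 (ori G e).2, (hcH _ _ (hadj e)).2.1⟩
    else none
  have hc1 : ∀ e a, c e = some a → rep (G.ends e) = some e ∧
      ∀ v x, G.ends e = s(v, x) → cH v x = a.1 := by
    intro e a h
    by_cases h1 : rep (G.ends e) = some e
    · simp only [c, if_pos h1, Option.some.injEq] at h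
      refine ⟨h1, ?_⟩
      intro v x hvx
      have h2 := ends_ori G e
      rw [hvx, Sym2.eq_iff] at h2
      rcases h2 with ⟨h2, h3⟩ | ⟨h2, h3⟩
      · rw [h2, h3, ← h]
      · rw [h2, h3, ← h]
        exact ((hcH _ _ (hadj e)).1).symm
    · simp only [c, if_neg h1] at h
      exact absurd h (by simp)
  refine ⟨c, ?_, ?_⟩
  · intro e f v a hve hvf he hf
    obtain ⟨h1, h2⟩ := hc1 e a he
    obtain ⟨h3, h4⟩ := hc1 f a hf
    obtain ⟨x, hx⟩ := Sym2.mem_iff_exists.1 hve
    obtain ⟨y, hy⟩ := Sym2.mem_iff_exists.1 hvf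
    have h5 := h2 v x hx
    have h6 := h4 v y hy
    have h7 : x = y := by
      by_contra hxy
      exact (hcH v x ⟨e, hx⟩).2.2 y ⟨f, hy⟩ hxy (h5.trans h6.symm)
    subst h7
    rw [hx] at h1
    rw [hy, h1, Option.some.injEq] at h3
    exact h3
  · intro e _
    obtain ⟨e', h1, h2⟩ := hrep (G.ends e) ⟨e, rfl⟩
    refine ⟨e', h2, ?_⟩
    have h3 : rep (G.ends e') = some e' := by rw [h2, h1]
    simp only [c, if_pos h3]
    simp

/-- the graph of the pairs in the same orbit -/
def orbG {W : Type} (G' : SimpleGraph W) : SimpleGraph W where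
  Adj x y := x ≠ y ∧ ∃ φ : G' ≃g G', φ x = y
  symm := ⟨fun x y ⟨h, φ, hφ⟩ => ⟨h.symm, φ.symm, by rw [← hφ]; simp⟩⟩
  loopless := ⟨fun x h => h.1 rfl⟩

/-- the edges of the multigraph -/
def EW {W : Type} (G' : SimpleGraph W) : Set (Sym2 W × Bool) :=
  {p | (p.2 = false ∧ p.1 ∈ G'.edgeSet) ∨ (p.2 = true ∧ p.1 ∈ (orbG G').edgeSet)}

/-- the multigraph: the edges of `G'` and an edge between any two vertices of one orbit -/
def MW {W : Type} (G' : SimpleGraph W) : MGraph W (EW G') where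
  ends := fun e => e.1.1
  loopless := by
    rintro ⟨p, h | h⟩
    · exact G'.not_isDiag_of_mem_edgeSet h.2
    · exact (orbG G').not_isDiag_of_mem_edgeSet h.2

theorem degree_MW {W : Type} [Fintype W] (G' : SimpleGraph W) [DecidableRel G'.Adj] (w : W) :
    (MW G').degree w + 1 ≤ orb G' w + G'.degree w := by
  classical
  have h1 : (MW G').degree w = {e : EW G' | w ∈ (MW G').ends e}.ncard := by
    unfold degree
    rw [← Nat.card_coe_set_eq]
    rfl
  have h2 : {e : EW G' | w ∈ (MW G').ends e}.ncard =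
      (Subtype.val '' {e : EW G' | w ∈ (MW G').ends e}).ncard :=
    (Set.ncard_image_of_injective _ Subtype.val_injective).symm
  have h3 : (Subtype.val '' {e : EW G' | w ∈ (MW G').ends e}) ⊆
      (fun y => (s(w, y), false)) '' (G'.neighborSet w) ∪
      (fun y => (s(w, y), true)) '' ({w' | ∃ φ : G' ≃g G', φ w = w'} \ {w}) := by
    rintro _ ⟨⟨⟨p, b⟩, he⟩, hw, rfl⟩
    have hw' : w ∈ p := hw
    obtain ⟨y, rfl⟩ := Sym2.mem_iff_exists.1 hw'
    rcases he with ⟨h4, h5⟩ | ⟨h4, h5⟩
    · left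
      simp only at h4 h5
      subst h4
      exact ⟨y, h5, rfl⟩
    · right
      simp only at h4 h5
      subst h4
      exact ⟨y, ⟨h5.2, fun h => h5.1 h.symm⟩, rfl⟩
  have h4 := Set.ncard_le_ncard h3 (Set.toFinite _)
  have h5 := Set.ncard_union_le ((fun y => (s(w, y), false)) '' (G'.neighborSet w))
    ((fun y => (s(w, y), true)) '' ({w' | ∃ φ : G' ≃g G', φ w = w'} \ {w}))
  have h6 : ((fun y => (s(w, y), false)) '' (G'.neighborSet w)).ncard ≤ G'.degree w := by
    refine (Set.ncard_image_le (Set.toFinite _)).trans (le_of_eq ?_)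
    rw [← SimpleGraph.card_neighborSet_eq_degree, ← Nat.card_coe_set_eq, Nat.card_eq_fintype_card]
  have h7 : ((fun y => (s(w, y), true)) '' ({w' | ∃ φ : G' ≃g G', φ w = w'} \ {w})).ncard + 1 ≤
      orb G' w := by
    have h8 := Set.ncard_image_le (f := fun y => (s(w, y), true))
      (Set.toFinite ({w' | ∃ φ : G' ≃g G', φ w = w'} \ {w}))
    have h9 : w ∈ {w' | ∃ φ : G' ≃g G', φ w = w'} := ⟨SimpleGraph.Iso.refl, rfl⟩
    have h10 := Set.ncard_sdiff_singleton_add_one h9 (Set.toFinite _)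
    unfold orb
    omega
  omega

theorem wreath_match {V W : Type} [Fintype V] [Fintype W] (G : SimpleGraph V)
    (G' : SimpleGraph W) [DecidableRel G'.Adj] (K : ℕ) (hG : EC 1 G)
    (hK : ∀ w, orb G' w + G'.degree w ≤ K) : EC K (wreath G G') := by
  classical
  obtain ⟨c0, hc0⟩ := hG
  have hun : ∀ x y z, G.Adj x y → G.Adj x z → y = z := by
    intro x y z hy hz
    by_contra hne
    have h1 := (hc0 x y hy).2.1
    have h2 := (hc0 x z hz).2.1
    exact (hc0 x y hy).2.2 z hz hne (by omega)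
  let eV : V → ℕ := fun v => (Fintype.equivFin V v).val
  have heV : Function.Injective eV := fun a b h => (Fintype.equivFin V).injective (Fin.ext h)
  let b : V → Bool := fun x => decide (∃ y, G.Adj x y ∧ eV y < eV x)
  have hb : ∀ x y, G.Adj x y → b y = xor (b x) true := by
    have key : ∀ x y, G.Adj x y → eV x < eV y → b x = false ∧ b y = true := by
      intro x y hxy hlt
      constructor
      · simp only [b, decide_eq_false_iff_not]
        rintro ⟨z, hz, hz'⟩
        rw [hun x z y hz hxy] at hz'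
        omega
      · simp only [b, decide_eq_true_eq]
        exact ⟨x, hxy.symm, hlt⟩
    intro x y hxy
    rcases lt_trichotomy (eV x) (eV y) with h | h | h
    · obtain ⟨h1, h2⟩ := key x y hxy h
      rw [h1, h2]; rfl
    · exact absurd (heV h) (G.ne_of_adj hxy)
    · obtain ⟨h1, h2⟩ := key y x hxy.symm h
      rw [h1, h2]; rfl
  have hfin : Finite (EW G') := inferInstance
  have hdeg : ∀ v, (MW G').degree v + 1 ≤ K := fun v => (degree_MW G' v).trans (hK v)
  obtain ⟨D, δ, hD⟩ := main_cover (MW G') K hdeg (fun e => e.1.2) (by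
    rintro ⟨⟨p, s⟩, he⟩ ⟨⟨q, t⟩, hf⟩ hne hpq hst
    apply hne
    have h1 : p = q := hpq
    have h2 : s = t := hst
    subst h1
    subst h2
    rfl) (exists_start _ _ hdeg)
  -- the label of an edge of the wreath product
  let L : V × W → V × W → Option (Sym2 W × Bool) := fun p q =>
    if p.1 = q.1 then some (s(p.2, q.2), false) else if p.2 = q.2 then none else
      some (s(p.2, q.2), true)
  let col : Option (Sym2 W × Bool) → W → Bool → ℕ := fun l w i =>
    match l with
    | none => (δ w).val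
    | some e => if h : e ∈ EW G' then (D ⟨e, h⟩ w i).val else 0
  have hcol : ∀ e (h : e ∈ EW G') w i, col (some e) w i = (D ⟨e, h⟩ w i).val := by
    intro e h w i
    simp only [col, dif_pos h]
  have hL : ∀ p q, (wreath G G').Adj p q →
      (p.1 = q.1 ∧ L p q = some (s(p.2, q.2), false) ∧ (s(p.2, q.2), false) ∈ EW G') ∨
      (G.Adj p.1 q.1 ∧ p.2 = q.2 ∧ L p q = none) ∨
      (G.Adj p.1 q.1 ∧ L p q = some (s(p.2, q.2), true) ∧ (s(p.2, q.2), true) ∈ EW G') := by
    rintro p q (⟨h1, h2⟩ | ⟨h1, h2⟩)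
    · left
      refine ⟨h1, ?_, Or.inl ⟨rfl, h2⟩⟩
      simp only [L, if_pos h1]
    · right
      have h3 := G.ne_of_adj h1
      by_cases h4 : p.2 = q.2
      · left
        refine ⟨h1, h4, ?_⟩
        simp only [L, if_neg h3, if_pos h4]
      · right
        refine ⟨h1, ?_, Or.inr ⟨rfl, h4, h2⟩⟩
        simp only [L, if_neg h3, if_neg h4]
  refine ⟨fun p q => col (L p q) p.2 (b p.1), ?_⟩
  intro p q hpq
  refine ⟨?_, ?_, ?_⟩
  · rcases hL p q hpq with ⟨h1, h2, h3⟩ | ⟨h1, h2, h3⟩ | ⟨h1, h2, h3⟩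
    · have h4 : L q p = some (s(p.2, q.2), false) := by
        have : s(p.2, q.2) = s(q.2, p.2) := Sym2.eq_swap
        simp only [L, if_pos h1.symm, this]
      show col (L p q) p.2 (b p.1) = col (L q p) q.2 (b q.1)
      rw [h2, h4, hcol _ h3, hcol _ h3, hD.mat ⟨_, h3⟩ p.2 q.2 (b p.1) rfl, ← h1]
      have : xor (b p.1) false = b p.1 := by cases b p.1 <;> rfl
      show (D _ q.2 (xor (b p.1) false)).val = _
      rw [this]
    · have h4 : L q p = none := by
        simp only [L, if_neg (G.ne_of_adj h1).symm, if_pos h2.symm]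
      show col (L p q) p.2 (b p.1) = col (L q p) q.2 (b q.1)
      rw [h3, h4, h2]
    · have h4 : L q p = some (s(p.2, q.2), true) := by
        have h5 : p.2 ≠ q.2 := by
          rcases h3 with ⟨h3, -⟩ | ⟨-, h3⟩
          · exact absurd h3 (by simp)
          · exact h3.1
        have : s(p.2, q.2) = s(q.2, p.2) := Sym2.eq_swap
        simp only [L, if_neg (G.ne_of_adj h1).symm, if_neg h5.symm, this]
      show col (L p q) p.2 (b p.1) = col (L q p) q.2 (b q.1)
      rw [h2, h4, hcol _ h3, hcol _ h3, hD.mat ⟨_, h3⟩ p.2 q.2 (b p.1) rfl, hb p.1 q.1 h1]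
  · show col (L p q) p.2 (b p.1) < K
    rcases hL p q hpq with ⟨h1, h2, h3⟩ | ⟨h1, h2, h3⟩ | ⟨h1, h2, h3⟩
    · rw [h2, hcol _ h3]
      exact (D _ _ _).2
    · rw [h3]
      exact (δ p.2).2
    · rw [h2, hcol _ h3]
      exact (D _ _ _).2
  · intro r hpr hqr heq
    have heq' : col (L p q) p.2 (b p.1) = col (L p r) p.2 (b p.1) := heq
    -- the labels are different
    have hlab : L p q ≠ L p r := by
      intro h
      rcases hL p q hpq with ⟨h1, h2, h3⟩ | ⟨h1, h2, h3⟩ | ⟨h1, h2, h3⟩ <;>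
      rcases hL p r hpr with ⟨h4, h5, h6⟩ | ⟨h4, h5, h6⟩ | ⟨h4, h5, h6⟩
      · rw [h2, h5, Option.some.injEq, Prod.mk.injEq, Sym2.congr_right] at h
        exact hqr (Prod.ext (h1.symm.trans h4) h.1)
      · rw [h2, h6] at h; exact absurd h (by simp)
      · rw [h2, h5] at h; exact absurd h (by simp)
      · rw [h3, h5] at h; exact absurd h (by simp)
      · exact hqr (Prod.ext (hun p.1 q.1 r.1 h1 h4) (h2.symm.trans h5))
      · rw [h3, h5] at h; exact absurd h (by simp)
      · rw [h2, h5] at h; exact absurd h (by simp)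
      · rw [h2, h6] at h; exact absurd h (by simp)
      · rw [h2, h5, Option.some.injEq, Prod.mk.injEq, Sym2.congr_right] at h
        exact hqr (Prod.ext (hun p.1 q.1 r.1 h1 h4) h.1)
    have hform : ∀ q, (wreath G G').Adj p q → L p q = none ∨ ∃ e, ∃ _ : e ∈ EW G',
        L p q = some e ∧ p.2 ∈ e.1 := by
      intro q hpq
      rcases hL p q hpq with ⟨h1, h2, h3⟩ | ⟨h1, h2, h3⟩ | ⟨h1, h2, h3⟩
      · exact Or.inr ⟨_, h3, h2, by simp⟩
      · exact Or.inl h3
      · exact Or.inr ⟨_, h3, h2, by simp⟩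
    rcases hform q hpq with h1 | ⟨e, he, h1, h2⟩ <;> rcases hform r hpr with h3 | ⟨f, hf, h3, h4⟩
    · exact hlab (h1.trans h3.symm)
    · rw [h1, h3, hcol _ hf] at heq'
      exact hD.del ⟨f, hf⟩ p.2 (b p.1) h4 (Fin.ext heq'.symm)
    · rw [h1, h3, hcol _ he] at heq'
      exact hD.del ⟨e, he⟩ p.2 (b p.1) h2 (Fin.ext heq')
    · rw [h1, h3, hcol _ he, hcol _ hf] at heq'
      refine hD.prp ⟨e, he⟩ ⟨f, hf⟩ p.2 (b p.1) ?_ h2 h4 (Fin.ext heq')
      intro h
      apply hlab
      have h5 : e = f := congrArg Subtype.val h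
      rw [h1, h3, h5]

end Pool.Agent.L7h38.WS
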