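import Pool.Agent.L7h38.WS.Closure

/-!
# Kempe chains in closed elementary sets
-/

set_option autoImplicit false

namespace Pool.Agent.L7h38.WS

open Pool.Agent.W998.KG Pool.Agent.W411.KG
open Pool.Agent.Results.MP_633d19_co.SmallDegree
open Pool.Agent.Results.MP_633d19_co.SmallDegree.MGraph

variable {V E : Type}

theorem rch_mem {G : MGraph V E} {k : ℕ} {c : E → Option (Fin k)} {T : Set V} (hT : CE G c T)
    {a b : Fin k} {x v : V} (hx : x ∈ T) (ha : ∃ z ∈ T, G.Miss c z a) (hb : ∃ z ∈ T, G.Miss c z b)
    (h : Rch G c a b x v) : v ∈ T := by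
  induction h with
  | refl => exact hx
  | tail _ hst ih =>
    obtain ⟨e, he, h1 | h1⟩ := hst
    · exact hT.clsd e a _ _ h1 he ih ha
    · exact hT.clsd e b _ _ h1 he ih hb

/-- an involution of a finite type and the parity of its number of fixed points -/
theorem card_fix {α : Type} [Fintype α] [DecidableEq α] (s : α → α) (hs : Function.Involutive s) :
    (Finset.univ.filter fun x => s x = x).card ≡ Fintype.card α [MOD 2] := by
  have h1 : (hs.toPerm s) ^ 2 ^ 1 = 1 := by
    ext x
    simp [pow_succ, hs x]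
  have h := Equiv.Perm.card_compl_support_modEq h1
  have h2 : ((hs.toPerm s).support)ᶜ = Finset.univ.filter fun x => s x = x := by
    ext x
    simp
  rwa [h2] at h

/-- In a closed elementary set, the chain of `x` reaches the vertex at which the other colour is
missing. -/
theorem chain [Finite V] {G : MGraph V E} {k : ℕ} {c : E → Option (Fin k)} (hc : G.PP c)
    {T : Set V} (hT : CE G c T) {a b : Fin k} {x z : V} (hx : x ∈ T) (hz : z ∈ T)
    (hxb : G.Miss c x b) (hza : G.Miss c z a) : Rch G c a b x z := by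
  classical
  have := Fintype.ofFinite V
  let K := {v : V // Rch G c a b x v}
  have hKT : ∀ v : K, v.1 ∈ T := fun v => rch_mem hT hx ⟨z, hz, hza⟩ ⟨x, hx, hxb⟩ v.2
  have hstep : ∀ (d : Fin k), (d = a ∨ d = b) → ∀ v : K, Rch G c a b x (G.nb c d v.1) := by
    intro d hd v
    by_cases hm : G.Miss c v.1 d
    · rw [G.nb_miss hm]
      exact v.2
    · obtain ⟨e, h1, h2⟩ := G.exists_of_not_miss hc hm
      refine Relation.ReflTransGen.tail v.2 ⟨e, h2, ?_⟩
      rcases hd with rfl | rfl
      · exact Or.inl h1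
      · exact Or.inr h1
  let s : K → K := fun v => ⟨G.nb c a v.1, hstep a (Or.inl rfl) v⟩
  let t : K → K := fun v => ⟨G.nb c b v.1, hstep b (Or.inr rfl) v⟩
  have hs : Function.Involutive s := fun v => Subtype.ext (G.nb_invol hc a v.1)
  have ht : Function.Involutive t := fun v => Subtype.ext (G.nb_invol hc b v.1)
  have h1 := card_fix s hs
  have h2 := card_fix t ht
  have h3 : (Finset.univ.filter fun v => t v = v) = {⟨x, Relation.ReflTransGen.refl⟩} := by
    ext v
    rw [Finset.mem_filter, Finset.mem_singleton]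
    constructor
    · rintro ⟨-, h⟩
      have h4 : G.Miss c v.1 b := (G.miss_iff hc).1 (congrArg Subtype.val h)
      exact Subtype.ext (hT.elem _ (hKT v) _ hx b h4 hxb)
    · rintro rfl
      exact ⟨Finset.mem_univ _, Subtype.ext (G.nb_miss hxb)⟩
  rw [h3, Finset.card_singleton] at h2
  have h5 : (Finset.univ.filter fun v => s v = v).Nonempty := by
    rw [← Finset.card_pos]
    have h6 := h1.trans h2.symm
    rcases Nat.eq_zero_or_pos (Finset.univ.filter fun v => s v = v).card with h7 | h7
    · rw [h7] at h6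
      exact absurd h6 (by decide)
    · exact h7
  obtain ⟨v, hv⟩ := h5
  rw [Finset.mem_filter] at hv
  have h6 : G.Miss c v.1 a := (G.miss_iff hc).1 (congrArg Subtype.val hv.2)
  have h7 : v.1 = z := hT.elem _ (hKT v) _ hz a h6 hza
  rw [← h7]
  exact v.2

/-- The union of two intersecting closed elementary sets is elementary. -/
theorem union [Finite V] {G : MGraph V E} {k : ℕ} {c : E → Option (Fin k)} (hc : G.PP c)
    (hmiss : ∀ v, ∃ a, G.Miss c v a)
    {T S : Set V} (hT : CE G c T) (hS : CE G c S) {d v w : V} (hdT : d ∈ T) (hdS : d ∈ S)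
    (hv : v ∈ T) (hw : w ∈ S) {a : Fin k} (hva : G.Miss c v a) (hwa : G.Miss c w a) : v = w := by
  by_contra hne
  obtain ⟨b, hb⟩ := hmiss d
  by_cases h1 : d = v
  · subst h1
    exact hne (hS.elem _ hdS _ hw a hva hwa)
  by_cases h2 : d = w
  · subst h2
    exact hne (hT.elem _ hv _ hdT a hva hwa)
  exact three hc (Or.inr hb) (Or.inl hva) (Or.inl hwa) (chain hc hT hdT hv hb hva)
    (chain hc hS hdS hw hb hwa) h1 h2 hne

end Pool.Agent.L7h38.WS
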